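import Pool.Agent.N510.BC.Stm
import Pool.Agent.H40.BP.D3
import Pool.Agent.H94R2.BQ.G

/-!
Project BC, leaf DY (helper392): the ring `R/(xw - p)` and its localisation at `(x)`.
Adapted from `Pool.Agent.H40.BP.D3` (helper443).
-/

set_option autoImplicit false

noncomputable section

namespace Pool.Agent.N392.BC

open Pool.Agent.N510.BC BQ IsLocalRing Polynomial Pool.Agent.H40.BP Pool.Agent.W394.BQN

lemma dy_main (R : Type) [CommRing R] [IsDomain R] [IsLocalRing R] [IsNoetherianRing R]
    (x w p : R) (q : Ideal R) (hqs : q = Ideal.span {x, p})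
    (hq : q.IsPrime) (hx : Prime x) (hnxp : ¬ x ∣ p) (F : R)
    (hF : F = x * w - p) :
    IsDomain (R ⧸ Ideal.span {F}) ∧
    ∃ (Ω : Type) (_ : CommRing Ω) (φ : R ⧸ Ideal.span {F} →+* Ω),
      Function.Injective φ ∧
      (∀ ω : Ω, ∃ f : R, f ∉ q ∧ ∃ a, φ (Ideal.Quotient.mk _ f) * ω = φ a) ∧ AF Ω := by
  have hxq : x ∈ q := by
    rw [hqs]
    exact Ideal.subset_span (by simp)
  have hpq : p ∈ q := by
    rw [hqs]
    exact Ideal.subset_span (by simp)
  have hFq : F ∈ q := by
    rw [hF]
    exact q.sub_mem (q.mul_mem_right _ hxq) hpq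
  have hFle : Ideal.span {F} ≤ q := by
    rw [Ideal.span_le, Set.singleton_subset_iff]
    exact hFq
  have hsurj : Function.Surjective (Ideal.Quotient.mk (Ideal.span {F})) :=
    Ideal.Quotient.mk_surjective
  have hker : RingHom.ker (Ideal.Quotient.mk (Ideal.span {F})) = Ideal.span {F} :=
    Ideal.mk_ker
  have hnt : Nontrivial (R ⧸ Ideal.span {F}) :=
    Ideal.Quotient.nontrivial_iff.2 (ne_top_of_le_ne_top hq.ne_top hFle)
  have hloc : IsLocalRing (R ⧸ Ideal.span {F}) := IsLocalRing.of_surjective' _ hsurj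
  have hpmk : Ideal.Quotient.mk (Ideal.span {F}) p = Ideal.Quotient.mk (Ideal.span {F}) x *
      Ideal.Quotient.mk (Ideal.span {F}) w := by
    rw [← map_mul, eq_comm, Ideal.Quotient.eq, Ideal.mem_span_singleton]
    exact ⟨1, by rw [hF]; ring⟩
  -- `x` is a nonzerodivisor
  have hreg : ∀ a : R ⧸ Ideal.span {F}, Ideal.Quotient.mk (Ideal.span {F}) x * a = 0 → a = 0 := by
    intro a
    obtain ⟨a, rfl⟩ := hsurj a
    intro ha
    rw [← map_mul, Ideal.Quotient.eq_zero_iff_mem, Ideal.mem_span_singleton] at ha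
    obtain ⟨b, hb⟩ := ha
    have h1 : x ∣ p * b := ⟨w * b - a, by rw [mul_sub, hb, hF]; ring⟩
    rcases hx.dvd_or_dvd h1 with h2 | h2
    · exact absurd h2 hnxp
    · obtain ⟨c, rfl⟩ := h2
      rw [Ideal.Quotient.eq_zero_iff_mem, Ideal.mem_span_singleton]
      refine ⟨c, mul_left_cancel₀ hx.ne_zero ?_⟩
      rw [hb]
      ring
  -- `(x)` is prime
  obtain ⟨qb, hqb⟩ : ∃ qb, qb = Ideal.map (Ideal.Quotient.mk (Ideal.span {F})) q := ⟨_, rfl⟩
  have hqbp : qb.IsPrime := by
    rw [hqb]
    exact Ideal.map_isPrime_of_surjective hsurj (by rw [hker]; exact hFle)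
  have hqmem : ∀ f : R, Ideal.Quotient.mk (Ideal.span {F}) f ∈ qb ↔ f ∈ q := by
    intro f
    rw [hqb, ← Ideal.mem_comap, Ideal.comap_map_of_surjective' _ hsurj, hker, sup_eq_left.2 hFle]
  have hqspan : qb = Ideal.span {Ideal.Quotient.mk (Ideal.span {F}) x} := by
    rw [hqb, hqs, Ideal.map_span, Set.image_pair, hpmk]
    apply le_antisymm
    · rw [Ideal.span_le]
      rintro z (rfl | hz)
      · exact Ideal.mem_span_singleton_self _
      · rw [Set.mem_singleton_iff] at hz
        rw [hz]
        exact Ideal.mul_mem_right _ _ (Ideal.mem_span_singleton_self _)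
    · exact Ideal.span_mono (by simp)
  have hxprime : (Ideal.span {Ideal.Quotient.mk (Ideal.span {F}) x}).IsPrime := by
    rw [← hqspan]
    exact hqbp
  have hdom : IsDomain (R ⧸ Ideal.span {F}) := D3aux.isDomain_of_prime _ hreg hxprime
  refine ⟨hdom, ?_⟩
  refine ⟨Localization.AtPrime qb, inferInstance,
    algebraMap (R ⧸ Ideal.span {F}) (Localization.AtPrime qb), ?_, ?_, ?_⟩
  · exact IsLocalization.injective (Localization.AtPrime qb) qb.primeCompl_le_nonZeroDivisors
  · intro ω
    obtain ⟨⟨a, s⟩, has⟩ := IsLocalization.surj qb.primeCompl ω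
    obtain ⟨f, hf⟩ := hsurj (s : R ⧸ Ideal.span {F})
    refine ⟨f, ?_, a, ?_⟩
    · intro hfq
      apply s.2
      rw [← hf]
      exact (hqmem f).2 hfq
    · rw [hf, mul_comm]
      exact has
  · have hd : IsDomain (Localization.AtPrime qb) :=
      IsLocalization.isDomain_localization qb.primeCompl_le_nonZeroDivisors
    have hn : IsNoetherianRing (Localization.AtPrime qb) :=
      IsLocalization.isNoetherianRing qb.primeCompl (Localization.AtPrime qb) inferInstance
    have hmax : maximalIdeal (Localization.AtPrime qb) =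
        Ideal.span {algebraMap (R ⧸ Ideal.span {F}) (Localization.AtPrime qb)
          (Ideal.Quotient.mk (Ideal.span {F}) x)} := by
      rw [← Localization.AtPrime.map_eq_maximalIdeal]
      have e := congrArg (Ideal.map (algebraMap (R ⧸ Ideal.span {F}) (Localization.AtPrime qb)))
        hqspan
      rw [e, Ideal.map_span, Set.image_singleton]
    have hpid : IsPrincipalIdealRing (Localization.AtPrime qb) := by
      refine ((tfae_of_isNoetherianRing_of_isLocalRing_of_isDomain
        (R := Localization.AtPrime qb)).out 4 0).1 ?_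
      rw [hmax]
      exact ⟨⟨_, rfl⟩⟩
    exact fun m => quillen_suslin m (Localization.AtPrime qb)

theorem t_DY : S_DY := by
  intro R _ _ _ _ x w p hq hx hnxp
  exact dy_main R x w p _ rfl hq hx hnxp _ rfl

end Pool.Agent.N392.BC
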